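import Mathlib

/-
Bounded integrable functions with a nonnegative cosine transform.
-/

namespace Pool.Agent.MP_66cee2_co.H59

open MeasureTheory Filter Topology Set Module
open scoped FourierTransform RealInnerProductSpace Real ContDiff

namespace Bochx

variable {V : Type} [NormedAddCommGroup V] [InnerProductSpace ℝ V] [FiniteDimensional ℝ V]
  [MeasurableSpace V] [BorelSpace V]

/-- the cosine transform. -/
noncomputable def ct (H : V → ℝ) (ξ : V) : ℝ := ∫ w, H w * Real.cos (2 * π * ⟪w, ξ⟫)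

theorem int_mul {H : V → ℝ} (hH : Integrable H) {u : V → ℝ} (hu : Continuous u)
    (hb : ∀ w, |u w| ≤ 1) : Integrable fun w => H w * u w :=
  hH.mul_bdd (c := 1) hu.aestronglyMeasurable (Eventually.of_forall hb)

theorem four_eq {H : V → ℝ} (hH : Integrable H) (ξ : V) :
    𝓕 (fun w => (H w : ℂ)) ξ =
      (ct H ξ : ℂ) - ((∫ w, H w * Real.sin (2 * π * ⟪w, ξ⟫) : ℝ) : ℂ) * Complex.I := by
  have h1 := (int_mul hH (u := fun w => Real.cos (2 * π * ⟪w, ξ⟫)) (by fun_prop)
    fun w => Real.abs_cos_le_one _).ofReal (𝕜 := ℂ)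
  have h2 := (int_mul hH (u := fun w => Real.sin (2 * π * ⟪w, ξ⟫)) (by fun_prop)
    fun w => Real.abs_sin_le_one _).ofReal (𝕜 := ℂ)
  rw [Real.fourier_eq', ct, ← integral_complex_ofReal, ← integral_complex_ofReal,
    ← integral_mul_const]
  refine Eq.trans ?_ (integral_sub h1 (h2.mul_const Complex.I))
  refine integral_congr_ae (Eventually.of_forall fun w => ?_)
  simp only [smul_eq_mul]
  rw [Complex.exp_mul_I, ← Complex.ofReal_cos, ← Complex.ofReal_sin, neg_mul, neg_mul,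
    Real.cos_neg, Real.sin_neg]
  push_cast
  change _ = (H w : ℂ) * _ - (H w : ℂ) * _ * _
  ring

theorem four_re {H : V → ℝ} (hH : Integrable H) (ξ : V) :
    (𝓕 (fun w => (H w : ℂ)) ξ).re = ct H ξ := by
  rw [four_eq hH]
  simp

theorem four_even {H : V → ℝ} (hH : Integrable H) (he : ∀ w, H (-w) = H w) :
    𝓕 (fun w => (H w : ℂ)) = fun ξ => (ct H ξ : ℂ) := by
  funext ξ
  have h := integral_neg_eq_self (fun w => H w * Real.sin (2 * π * ⟪w, ξ⟫)) (volume : Measure V)
  simp only [he, inner_neg_left, mul_neg, Real.sin_neg, integral_neg] at h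
  rw [four_eq hH, show ∫ w, H w * Real.sin (2 * π * ⟪w, ξ⟫) = 0 by linarith]
  simp

theorem flip {f g : V → ℂ} (hf : Integrable f) (hg : Integrable g) :
    ∫ ξ, 𝓕 f ξ * g ξ = ∫ x, f x * 𝓕 g x := by
  simpa using! (VectorFourier.integral_fourierIntegral_smul_eq_flip (L := innerₗ V)
    Real.continuous_fourierChar continuous_inner hf hg)

theorem four_cont {f : V → ℂ} (hf : Integrable f) : Continuous (𝓕 f) :=
  VectorFourier.fourierIntegral_continuous Real.continuous_fourierChar continuous_inner hf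

theorem ct_cont {H : V → ℝ} (hH : Integrable H) : Continuous (ct H) := by
  have := Complex.continuous_re.comp (four_cont (hH.ofReal (𝕜 := ℂ)))
  exact this.congr fun ξ => four_re hH ξ

theorem ct_le {H : V → ℝ} (ξ : V) (hH : Integrable H) : |ct H ξ| ≤ ∫ w, |H w| := by
  refine (abs_integral_le_integral_abs).trans (integral_mono_of_nonneg
    (Eventually.of_forall fun w => abs_nonneg _) hH.abs (Eventually.of_forall fun w => ?_))
  simp only [abs_mul]
  exact mul_le_of_le_one_right (abs_nonneg _) (Real.abs_cos_le_one _)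

theorem int_gauss {c : ℝ} (hc : 0 < c) : Integrable fun v : V => Real.exp (-c * ‖v‖ ^ 2) := by
  have h := (GaussianFourier.integrable_cexp_neg_mul_sq_norm_add (V := V) (b := (c : ℂ))
    (by simpa using hc) 0 0).norm
  refine h.congr (Eventually.of_forall fun v => ?_)
  simp only [zero_mul, add_zero, Complex.norm_exp]
  congr 1
  norm_cast

theorem four_gauss {c : ℝ} (hc : 0 < c) (w : V) :
    𝓕 (fun v : V => ((Real.exp (-c * ‖v‖ ^ 2) : ℝ) : ℂ)) w =
      (((π / c) ^ (finrank ℝ V / 2 : ℝ) * Real.exp (-(π ^ 2 / c) * ‖w‖ ^ 2) : ℝ) : ℂ) := by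
  have h := fourier_gaussian_innerProductSpace (V := V) (b := (c : ℂ)) (by simpa using hc) w
  have e : (fun v : V => ((Real.exp (-c * ‖v‖ ^ 2) : ℝ) : ℂ)) =
      fun v : V => Complex.exp (-(c : ℂ) * (‖v‖ : ℂ) ^ 2) := by
    funext v
    push_cast
    rfl
  rw [e, h, Complex.ofReal_mul, Complex.ofReal_cpow (by positivity)]
  push_cast
  congr 2
  ring

theorem damped {H : V → ℝ} {A : ℝ} (hH : Integrable H) (hb : ∀ w, |H w| ≤ A)
    (he : ∀ w, H (-w) = H w) {c : ℝ} (hc : 0 < c) :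
    ∫ ξ, Real.exp (-c * ‖ξ‖ ^ 2) * ct H ξ ≤ A := by
  have h := flip ((int_gauss (V := V) hc).ofReal (𝕜 := ℂ)) (hH.ofReal (𝕜 := ℂ))
  simp only [RCLike.ofReal_eq_complex_ofReal] at h
  rw [four_even hH he] at h
  simp only [four_gauss hc, ← Complex.ofReal_mul, integral_complex_ofReal,
    Complex.ofReal_inj] at h
  rw [← h]
  have hc' : 0 < π ^ 2 / c := by positivity
  have k := (int_gauss (V := V) hc').const_mul ((π / c) ^ (finrank ℝ V / 2 : ℝ))
  have k1 : ∫ w : V, (π / c) ^ (finrank ℝ V / 2 : ℝ) * Real.exp (-(π ^ 2 / c) * ‖w‖ ^ 2) = 1 := by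
    rw [integral_const_mul, GaussianFourier.integral_rexp_neg_mul_sq_norm hc',
      ← Real.mul_rpow (by positivity) (by positivity),
      show π / c * (π / (π ^ 2 / c)) = 1 by field_simp, Real.one_rpow]
  refine le_trans (integral_mono (k.mul_bdd hH.1 (Eventually.of_forall hb)) (k.mul_const A)
    fun w => ?_) (by rw [integral_mul_const, k1, one_mul])
  exact mul_le_mul_of_nonneg_left ((le_abs_self _).trans (hb w)) (by positivity)

theorem mass {H : V → ℝ} {A : ℝ} (hH : Integrable H) (hb : ∀ w, |H w| ≤ A)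
    (he : ∀ w, H (-w) = H w) (hq : ∀ ξ, 0 ≤ ct H ξ) :
    ∫⁻ ξ, ENNReal.ofReal (ct H ξ) ≤ ENNReal.ofReal A := by
  have hc := ct_cont hH
  have h1 : ∀ ξ : V, Tendsto (fun k : ℕ => ENNReal.ofReal
      (Real.exp (-(1 / ((k : ℝ) + 1)) * ‖ξ‖ ^ 2) * ct H ξ)) atTop
      (𝓝 (ENNReal.ofReal (ct H ξ))) := fun ξ => by
    refine ENNReal.tendsto_ofReal ?_
    have := (((tendsto_one_div_add_atTop_nhds_zero_nat (𝕜 := ℝ)).neg.mul_const
      (‖ξ‖ ^ 2)).rexp).mul_const (ct H ξ)
    simpa using this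
  calc ∫⁻ ξ, ENNReal.ofReal (ct H ξ) = ∫⁻ ξ, liminf (fun k : ℕ => ENNReal.ofReal
        (Real.exp (-(1 / ((k : ℝ) + 1)) * ‖ξ‖ ^ 2) * ct H ξ)) atTop :=
        lintegral_congr fun ξ => (h1 ξ).liminf_eq.symm
    _ ≤ liminf (fun k : ℕ => ∫⁻ ξ, ENNReal.ofReal
        (Real.exp (-(1 / ((k : ℝ) + 1)) * ‖ξ‖ ^ 2) * ct H ξ)) atTop :=
        lintegral_liminf_le fun k => by fun_prop
    _ ≤ ENNReal.ofReal A := by
        refine liminf_le_of_frequently_le' (Frequently.of_forall fun k => ?_)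
        have hk : (0 : ℝ) < 1 / ((k : ℝ) + 1) := by positivity
        rw [← ofReal_integral_eq_lintegral_ofReal ((int_gauss hk).mul_bdd
          hc.aestronglyMeasurable (Eventually.of_forall fun ξ => ct_le ξ hH))
          (Eventually.of_forall fun ξ => mul_nonneg (Real.exp_pos _).le (hq ξ))]
        exact ENNReal.ofReal_le_ofReal (damped hH hb he hk)

theorem inversion {f : V → ℂ} (hf : Integrable f) (hf' : Integrable (𝓕 f))
    (he : ∀ w, f (-w) = f w) : ∀ᵐ w, 𝓕 (𝓕 f) w = f w := by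
  refine ae_eq_of_integral_contDiff_smul_eq (four_cont hf').locallyIntegrable
    hf.locallyIntegrable fun g g1 g2 => ?_
  have s1 : HasCompactSupport fun x => (g x : ℂ) := g2.comp_left (g := Complex.ofReal) rfl
  have s2 : ContDiff ℝ ∞ fun x => (g x : ℂ) := Complex.ofRealCLM.contDiff.comp g1
  have i1 : Integrable fun x => (g x : ℂ) := s2.continuous.integrable_of_hasCompactSupport s1
  have i2 : Integrable (𝓕 fun x => (g x : ℂ)) := (𝓕 (s1.toSchwartzMap s2)).integrable
  have e : ∀ w, 𝓕 (𝓕 fun x => (g x : ℂ)) w = (g (-w) : ℂ) := fun w => by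
    have := congrFun (s2.continuous.fourierInv_fourier_eq i1 i2) (-w)
    rwa [Real.fourierInv_eq_fourier_neg, neg_neg] at this
  simp only [Complex.real_smul]
  rw [← flip i1 hf', ← flip i2 hf, ← integral_neg_eq_self]
  simp only [e, he, neg_neg]

end Bochx

open Bochx in
/-- the spectral measure. -/
theorem bochner {d : ℕ} (H : EuclideanSpace ℝ (Fin d) → ℝ) (A : ℝ) (hH : Integrable H)
    (hb : ∀ w, |H w| ≤ A) (he : ∀ w, H (-w) = H w)
    (hq : ∀ ξ, 0 ≤ ∫ w, H w * Real.cos ⟪ξ, w⟫) :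
    ∃ μ : Measure (EuclideanSpace ℝ (Fin d)), IsFiniteMeasure μ ∧ μ.real univ ≤ A ∧
      ∀ φ : EuclideanSpace ℝ (Fin d) → ℝ, Integrable φ →
        ∫ w, H w * φ w = ∫ ξ, (∫ w, φ w * Real.cos ⟪ξ, w⟫) ∂μ := by
  have e0 : ∀ (φ : EuclideanSpace ℝ (Fin d) → ℝ) ξ,
      ∫ w, φ w * Real.cos ⟪(2 * π) • ξ, w⟫ = ct φ ξ := fun φ ξ => by
    simp only [ct, real_inner_smul_left, real_inner_comm ξ]
  have hq' : ∀ ξ, 0 ≤ ct H ξ := fun ξ => e0 H ξ ▸ hq _
  have hc := ct_cont hH
  have hm := mass hH hb he hq'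
  have hA : 0 ≤ A := (abs_nonneg _).trans (hb 0)
  have hi : Integrable (ct H) := ⟨hc.aestronglyMeasurable, by
    rw [hasFiniteIntegral_iff_ofReal (Eventually.of_forall hq')]
    exact hm.trans_lt ENNReal.ofReal_lt_top⟩
  have ms : Measurable fun ξ : EuclideanSpace ℝ (Fin d) => (2 * π) • ξ := by fun_prop
  have hu : ((volume.withDensity fun ξ => ENNReal.ofReal (ct H ξ)).map
      fun ξ : EuclideanSpace ℝ (Fin d) => (2 * π) • ξ) univ ≤ ENNReal.ofReal A := by
    rwa [Measure.map_apply ms MeasurableSet.univ, preimage_univ,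
      withDensity_apply _ MeasurableSet.univ, Measure.restrict_univ]
  refine ⟨_, ⟨hu.trans_lt ENNReal.ofReal_lt_top⟩, ENNReal.toReal_le_of_le_ofReal hA hu,
    fun φ hφ => ?_⟩
  have c1 : Continuous fun ξ : EuclideanSpace ℝ (Fin d) => ∫ w, φ w * Real.cos ⟪ξ, w⟫ := by
    have := (ct_cont hφ).comp (continuous_const_smul (2 * π)⁻¹)
    refine this.congr fun ξ => ?_
    rw [Function.comp_apply, ← e0, smul_inv_smul₀ (by positivity)]
  rw [integral_map ms.aemeasurable c1.aestronglyMeasurable,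
    integral_withDensity_eq_integral_toReal_smul (by fun_prop)
      (Eventually.of_forall fun _ => ENNReal.ofReal_lt_top)]
  simp only [e0, ENNReal.toReal_ofReal (hq' _), smul_eq_mul]
  have f1 := four_even hH he
  have i1 : Integrable fun w => (H w : ℂ) := hH.ofReal (𝕜 := ℂ)
  have i2 : Integrable fun w => (ct H w : ℂ) := hi.ofReal (𝕜 := ℂ)
  have i3 : Integrable fun w => (φ w : ℂ) := hφ.ofReal (𝕜 := ℂ)
  have h1 := inversion i1 (f1 ▸ i2) fun w => by rw [he]
  rw [f1] at h1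
  have h2 := flip i2 i3
  have h3 : ∫ ξ, 𝓕 (fun w => (ct H w : ℂ)) ξ * (φ ξ : ℂ) = ((∫ w, H w * φ w : ℝ) : ℂ) := by
    rw [← integral_complex_ofReal]
    refine integral_congr_ae (h1.mono fun w hw => ?_)
    simp only [hw, Complex.ofReal_mul]
  have i4 : Integrable fun x => (ct H x : ℂ) * 𝓕 (fun w => (φ w : ℂ)) x :=
    i2.mul_bdd (c := ∫ w, ‖(φ w : ℂ)‖) (four_cont i3).aestronglyMeasurable
      (Eventually.of_forall fun x => VectorFourier.norm_fourierIntegral_le_integral_norm _ _ _ _ _)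
  have h4 := congrArg Complex.re (h3.symm.trans h2)
  rw [Complex.ofReal_re] at h4
  rw [h4]
  refine (integral_re (𝕜 := ℂ) i4).symm.trans (integral_congr_ae (Eventually.of_forall fun x => ?_))
  simp only [RCLike.re_to_complex, Complex.re_ofReal_mul, four_re hφ]

end Pool.Agent.MP_66cee2_co.H59
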