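import Pool.Agent.MP_66cee2_co.XI.Dec
import Pool.Agent.MP_66cee2_co.XJ.Sig

/-
The parity lemma in every dimension.
-/

namespace Pool.Agent.MP_66cee2_co.D

open MeasureTheory Set Filter Metric Topology Pool.Agent.MP_66cee2_co.X
open scoped RealInnerProductSpace

namespace LAx

variable {d : ℕ}

theorem exists_shift {U : Set (E d)} (ho : IsOpen U) (hd : Dense U) {W : Set (E d)}
    (hW : W ∈ 𝓝 0) (p q r : E d) : ∃ η ∈ W, p + η ∈ U ∧ q + η ∈ U ∧ r + η ∈ U := by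
  have h1 : ∀ p : E d, Dense ((fun η => p + η) ⁻¹' U) := fun p =>
    hd.preimage (isOpenMap_add_left p)
  have h2 : ∀ p : E d, IsOpen ((fun η => p + η) ⁻¹' U) := fun p =>
    ho.preimage (by fun_prop)
  obtain ⟨η, hη, h⟩ := ((h1 p).inter_of_isOpen_left
    ((h1 q).inter_of_isOpen_left (h1 r) (h2 q)) (h2 p)).inter_nhds_nonempty hW
  exact ⟨η, h, hη⟩

theorem ev_shift {S : Set (E d)} {p : E d} (h : S ∈ 𝓝 p) : ∀ᶠ η in 𝓝 (0 : E d), p + η ∈ S := by
  have hc : ContinuousAt (fun η : E d => p + η) 0 := by fun_prop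
  exact hc.eventually_mem (by simpa using h)

theorem second (hd : 2 ≤ d) {S : Set (E d)} {m : E d} (hm : ‖m‖ = 1) (hS : S ∈ 𝓝 m) :
    ∃ w ∈ S, ‖w‖ = 1 ∧ m ≠ w ∧ m ≠ -w := by
  obtain ⟨r, hr, h⟩ := Metric.mem_nhds_iff.1 hS
  have h1 : ∀ a : E d, ∀ᵐ w ∂sig d, w ≠ a := fun a =>
    (measure_eq_zero_iff_ae_notMem.1 (sSig.point d hd a)).mono fun w hw => hw
  obtain ⟨w, hw, h2, h3, h4⟩ := Measure.exists_mem_of_measure_ne_zero_of_ae
    (sSig.cap d m r hm hr) (ae_restrict_of_ae ((sSig.unit d (by omega)).and ((h1 m).and (h1 (-m)))))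
  exact ⟨w, h hw, h2, h3.symm, fun e => h4 (by rw [e, neg_neg])⟩

theorem wv_cont (v : E d) : Continuous (XI.wv v) := by
  unfold XI.wv
  fun_prop

theorem wv_zero (v : E d) : XI.wv v 0 = v := by simp [XI.wv]

/-- two points near `y` are joined by a path of four unit steps inside `B`. -/
theorem path (hd : 2 ≤ d) {B : Set (E d)} (hB : IsOpen B) {y m : E d} (hy : y ∈ B) (hm : ‖m‖ = 1)
    (hym : y + m ∈ B) : ∃ V ∈ 𝓝 y, ∀ a ∈ V, ∀ b ∈ V, ∃ c z z' : E d,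
      a ∈ B ∧ b ∈ B ∧ c ∈ B ∧ z ∈ B ∧ z' ∈ B ∧
        ‖a - z‖ = 1 ∧ ‖c - z‖ = 1 ∧ ‖c - z'‖ = 1 ∧ ‖b - z'‖ = 1 := by
  obtain ⟨w, hw, hwu, n1, n2⟩ := second hd (S := {w | y + w ∈ B}) hm
    ((hB.preimage (by fun_prop)).mem_nhds hym)
  obtain ⟨H, H', hH⟩ := (XI.sDec d).2 m w hm hwu n1 n2
  have cα : Continuous fun x : E d × E d => H (x.2 - x.1) := by fun_prop
  have cβ : Continuous fun x : E d × E d => H' (x.2 - x.1) := by fun_prop
  have key : ∀ F : E d × E d → E d, Continuous F → F (y, y) ∈ B →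
      ∀ᶠ x in 𝓝 (y, y), F x ∈ B :=
    fun F hF h => hF.continuousAt.eventually_mem (hB.mem_nhds h)
  have k1 := key (fun x => x.1) continuous_fst hy
  have k2 := key (fun x => x.2) continuous_snd hy
  have k3 := key (fun x => x.1 + H (x.2 - x.1)) (by fun_prop) (by simpa using hy)
  have k4 := key (fun x => x.1 + XI.wv m (H (x.2 - x.1)))
    (continuous_fst.add ((wv_cont m).comp cα)) (by simpa [wv_zero] using hym)
  have k5 := key (fun x => x.1 + H (x.2 - x.1) + XI.wv w (H' (x.2 - x.1)))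
    ((continuous_fst.add cα).add ((wv_cont w).comp cβ)) (by simpa [wv_zero] using hw)
  have k6 : ∀ᶠ x in 𝓝 (y, y), ‖H (x.2 - x.1)‖ < 1 :=
    cα.norm.continuousAt.eventually_lt continuousAt_const (by simp)
  have k7 : ∀ᶠ x in 𝓝 (y, y), ‖H' (x.2 - x.1)‖ < 1 :=
    cβ.norm.continuousAt.eventually_lt continuousAt_const (by simp)
  obtain ⟨V, hV, V', hV', h⟩ :=
    mem_nhds_prod_iff.1 (k1.and (k2.and (k3.and (k4.and (k5.and (k6.and k7))))))
  refine ⟨V ∩ V', inter_mem hV hV', fun a ha b hb => ?_⟩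
  obtain ⟨h1, h2, h3, h4, h5, h6, h7⟩ := h (mk_mem_prod ha.1 hb.2)
  obtain ⟨e1, e2, e3⟩ := hH (b - a)
  obtain ⟨p1, p2, -⟩ := (XI.sDec d).1 m _ hm e2 h6.le
  obtain ⟨p3, p4, -⟩ := (XI.sDec d).1 w _ hwu e3 h7.le
  refine ⟨_, _, _, h1, h2, h3, h4, h5, ?_, ?_, ?_, ?_⟩
  · rw [norm_sub_rev]
    simpa using p1
  · rw [norm_sub_rev, ← p2]
    congr 1
    abel
  · rw [norm_sub_rev]
    simpa using p3
  · rw [norm_sub_rev, ← p4]
    congr 1
    have hb' : b = a + (H (b - a) + H' (b - a)) := by rw [e1]; abel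
    simp only
    nth_rewrite 3 [hb']
    abel

end LAx

open LAx in
/-- the parity lemma. -/
theorem laD {d : ℕ} (hd : 2 ≤ d) {α : Type} (O : α → Set (E d)) (opn : ∀ v, IsOpen (O v))
    (dense : Dense (⋃ v, O v)) (R : α → α → Prop)
    (hR : ∀ v v' y z, y ∈ O v → z ∈ O v' → ‖y - z‖ = 1 → R v v') (B G : Set (E d))
    (hB : IsOpen B) (hG : IsPreconnected G) (hGB : G ⊆ B) (hu : ∃ y ∈ G, ∃ z ∈ G, ‖y - z‖ = 1)
    (hm : ∀ y ∈ G, ∃ m : E d, ‖m‖ = 1 ∧ y + m ∈ B) (s : α → Bool) :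
    ¬ ∀ v v', (O v ∩ B).Nonempty → (O v' ∩ B).Nonempty → R v v' → s v ≠ s v' := by
  intro H
  obtain ⟨y, hy, z, hz, hyz⟩ := hu
  have hU : IsOpen (⋃ v, O v) := isOpen_iUnion opn
  have hstep : ∀ v v' a b, a ∈ O v → a ∈ B → b ∈ O v' → b ∈ B → ‖a - b‖ = 1 → s v ≠ s v' :=
    fun v v' a b h1 h2 h3 h4 h5 => H v v' ⟨a, h1, h2⟩ ⟨b, h3, h4⟩ (hR v v' a b h1 h3 h5)
  let A : Bool → Set (E d) := fun t => {x | ∀ᶠ a in 𝓝 x, ∀ v, a ∈ O v → s v = t}
  have hA : ∀ t, IsOpen (A t) := fun t => isOpen_setOfPred_eventually_nhds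
  have hdis : Disjoint (A true) (A false) := by
    rw [Set.disjoint_left]
    intro x h1 h2
    obtain ⟨a, ha, h3, h4⟩ := dense.inter_nhds_nonempty (Eventually.and h1 h2)
    obtain ⟨v, hv⟩ := mem_iUnion.1 ha
    have := (h3 v hv).symm.trans (h4 v hv)
    simp at this
  have hcov : G ⊆ A true ∪ A false := by
    intro x hx
    obtain ⟨m, hm1, hm2⟩ := hm x hx
    obtain ⟨V, hV, hp⟩ := path hd hB (hGB hx) hm1 hm2
    obtain ⟨a, ha, haV⟩ := dense.inter_nhds_nonempty hV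
    obtain ⟨v, hv⟩ := mem_iUnion.1 ha
    have hx' : x ∈ A (s v) := by
      filter_upwards [hV] with b hb v' hv'
      obtain ⟨c, w, w', h1, h2, h3, h4, h5, d1, d2, d3, d4⟩ := hp a haV b hb
      obtain ⟨η, ⟨g1, g2, g3, g4, g5, g6, g7⟩, u1, u2, u3⟩ := exists_shift hU dense
        ((ev_shift (hB.mem_nhds h1)).and ((ev_shift (hB.mem_nhds h2)).and
          ((ev_shift (hB.mem_nhds h3)).and ((ev_shift (hB.mem_nhds h4)).and
          ((ev_shift (hB.mem_nhds h5)).and ((ev_shift ((opn v).mem_nhds hv)).and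
          (ev_shift ((opn v').mem_nhds hv')))))))) c w w'
      obtain ⟨p, hp1⟩ := mem_iUnion.1 u1
      obtain ⟨q, hq⟩ := mem_iUnion.1 u2
      obtain ⟨q', hq'⟩ := mem_iUnion.1 u3
      have f1 := hstep v q _ _ g6 g1 hq g4 (by simpa using d1)
      have f2 := hstep p q _ _ hp1 g3 hq g4 (by simpa using d2)
      have f3 := hstep p q' _ _ hp1 g3 hq' g5 (by simpa using d3)
      have f4 := hstep v' q' _ _ g7 g2 hq' g5 (by simpa using d4)
      revert f1 f2 f3 f4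
      cases s v <;> cases s v' <;> cases s p <;> cases s q <;> cases s q' <;> simp
    revert hx'
    cases s v
    · exact Or.inr
    · exact Or.inl
  obtain ⟨t, ht⟩ : ∃ t, G ⊆ A t := by
    rcases hG.subset_or_subset (hA true) (hA false) hdis hcov with h | h
    · exact ⟨_, h⟩
    · exact ⟨_, h⟩
  obtain ⟨η, ⟨g1, g2, g3, g4⟩, u1, u2, -⟩ := exists_shift hU dense
    ((ev_shift (hB.mem_nhds (hGB hy))).and ((ev_shift (hB.mem_nhds (hGB hz))).and
      ((ev_shift (ht hy)).and (ev_shift (ht hz))))) y z z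
  obtain ⟨v, hv⟩ := mem_iUnion.1 u1
  obtain ⟨v', hv'⟩ := mem_iUnion.1 u2
  exact hstep v v' _ _ hv g1 hv' g2 (by simpa using hyz) ((g3 v hv).trans (g4 v' hv').symm)

end Pool.Agent.MP_66cee2_co.D
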